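import Pool.Agent.Y571.BC.Square

set_option autoImplicit false

namespace Pool.Agent.Y571.BC.Sound

open Pool.Agent.Y817.BC

theorem t (h1 : StmHier) (h2 : StmZComp) (h3 : StmSquare) : StmSound := by
  intro M T hT hc
  have R0 : ∀ x y z, Lam.R0 (T x y z) (T (x + 1) y z) := fun x y z => (hT x y z).1
  have R1 : ∀ x y z, Lam.R1 (T x y z) (T x (y + 1) z) := fun x y z => (hT x y z).2.1
  have R2 : ∀ x y z, Lam.R2 (T x y z) (T x y (z + 1)) := fun x y z => (hT x y z).2.2
  have cell : ∀ x y z, (T x y z).Cell := fun x y z => (R0 x y z).cell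
  -- the coordinates on which the parts depend
  have hA : ∀ x y z, (T x y z).A = (T x 0 z).A := by
    intro x y z
    induction y with
    | zero => rfl
    | succ y ih => rw [(R1 x y z).A, ih]
  have hB : ∀ x y z, (T x y z).B = (T 0 y z).B := by
    intro x y z
    induction x with
    | zero => rfl
    | succ x ih => rw [(R0 x y z).B, ih]
  have hbe : ∀ x y z, (T x y z).be = (T x 0 0).be := by
    intro x y z
    have e1 : ∀ y, (T x y z).be = (T x 0 z).be := by
      intro y
      induction y with
      | zero => rfl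
      | succ y ih => rw [(R1 x y z).be, ih]
    rw [e1]
    clear e1
    induction z with
    | zero => rfl
    | succ z ih => rw [(R2 x 0 z).be, ih]
  have hga : ∀ x y z, (T x y z).ga = (T 0 0 z).ga := by
    intro x y z
    have e1 : ∀ y, (T x y z).ga = (T x 0 z).ga := by
      intro y
      induction y with
      | zero => rfl
      | succ y ih => rw [(R1 x y z).ga, ih]
    rw [e1]
    clear e1
    induction x with
    | zero => rfl
    | succ x ih => rw [(R0 x 0 z).ga, ih]
  -- the two-dimensional configurations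
  have vA : V2 (fun x z => (T x 0 z).A) := fun x z =>
    ⟨(cell x 0 z).A, (R0 x 0 z).A, (R2 x 0 z).A⟩
  have vB : V2 (fun y z => (T 0 y z).B) := fun y z =>
    ⟨(cell 0 y z).B, (R1 0 y z).B, (R2 0 y z).B⟩
  have gen : ∀ c : ℕ → ℕ → HL, V2 c → ∀ x z, (c x z).p = (c x 0).p ∧ (c x z).o = (c x 0).o ∧
      (c x z).q = (c 0 z).q ∧ (c x z).u = (c 0 z).u := by
    intro c hc x z
    refine ⟨?_, ?_, ?_, ?_⟩
    · induction z with
      | zero => rfl
      | succ z ih => rw [(hc x z).2.2.p, ih]
    · induction z with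
      | zero => rfl
      | succ z ih => rw [(hc x z).2.2.o, ih]
    · induction x with
      | zero => rfl
      | succ x ih => rw [(hc x z).2.1.q, ih]
    · induction x with
      | zero => rfl
      | succ x ih => rw [(hc x z).2.1.u, ih]
  let p : ℕ → Bool := fun x => (T x 0 0).A.p
  let o : ℕ → Bool := fun x => (T x 0 0).A.o
  let p' : ℕ → Bool := fun y => (T 0 y 0).B.p
  let o' : ℕ → Bool := fun y => (T 0 y 0).B.o
  let q : ℕ → Bool := fun z => (T 0 0 z).A.q
  let u : ℕ → Bool := fun z => (T 0 0 z).A.u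
  obtain ⟨a1, a2, a3⟩ := h1 (fun x z => (T x 0 z).A) p o q u vA (gen _ vA)
  obtain ⟨b1, b2, _⟩ := h1 (fun y z => (T 0 y z).B) p' o' q u vB (by
    intro y z
    have h := gen _ vB y z
    refine ⟨h.1, h.2.1, ?_, ?_⟩
    · rw [h.2.2.1]; exact (cell 0 0 z).q.symm
    · rw [h.2.2.2]; exact (cell 0 0 z).u.symm)
  -- computability
  have hbool : ∀ φ : Lam M → Bool, Computable (fun z : ℕ => φ (T 0 0 z)) := by
    intro φ
    have e1 := hc (fun a => if φ a then 1 else 0)
    have e2 : Computable (fun z : ℕ => ((0, 0, z) : ℕ × ℕ × ℕ)) :=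
      Computable.pair (Computable.const 0) (Computable.pair (Computable.const 0) Computable.id)
    have e3 : Primrec (fun n : ℕ => decide (n = 1)) :=
      (Primrec.eq.comp Primrec.id (Primrec.const 1)).decide
    refine (e3.to_comp.comp (e1.comp e2)).of_eq fun z => ?_
    dsimp only
    cases φ (T 0 0 z) <;> simp
  have hz : Computable (zz q u) := h2 q u (hbool (fun a => a.A.q)) (hbool (fun a => a.A.u))
  refine ⟨fun l => (T 0 0 (zz q u l)).ga, ?_, (hbool (fun a => a.ga)).comp hz⟩
  -- the class
  intro t b hb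
  have hle := Square.run_le M t 0
  let v := (M.run t).2 0
  have hv : v ≤ t := hle
  let k := t + 1
  have hk : t + 1 < 2 ^ k := Nat.lt_two_pow_self
  let n := 2 ^ k
  let g : ℕ → ℕ → Lam M := fun x y => T (bb p o k + x) (bb p' o' k + y) (zz q u k)
  have gA : ∀ x y, (g x y).A = (T (bb p o k + x) 0 (zz q u k)).A := fun x y => hA _ _ _
  have gB : ∀ x y, (g x y).B = (T 0 (bb p' o' k + y) (zz q u k)).B := fun x y => hB _ _ _
  have sA : ∀ x y, x ≤ n → y ≤ n → ((g x y).A.ty.isH = true ↔ 0 < x ∧ x < n) := by
    intro x y hx _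
    rw [gA]
    rcases Nat.eq_zero_or_pos x with h | h
    · subst h
      have e := a2 k 0
      simp only [mul_zero] at e
      rw [e]
      simp
    · rcases Nat.lt_or_ge x n with h' | h'
      · have e := a1 k 0 x h h'
        simp only [mul_zero, add_zero] at e
        rw [e]
        simp [h, h']
      · have hxn : x = n := le_antisymm hx h'
        have e := a2 k 1
        simp only [mul_one] at e
        rw [hxn]
        simp only [n]
        rw [e]
        simp
  have sB : ∀ x y, x ≤ n → y ≤ n → ((g x y).B.ty.isH = true ↔ 0 < y ∧ y < n) := by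
    intro y x _ hx
    rw [gB]
    rcases Nat.eq_zero_or_pos x with h | h
    · subst h
      have e := b2 k 0
      simp only [mul_zero] at e
      rw [e]
      simp
    · rcases Nat.lt_or_ge x n with h' | h'
      · have e := b1 k 0 x h h'
        simp only [mul_zero, add_zero] at e
        rw [e]
        simp [h, h']
      · have hxn : x = n := le_antisymm hx h'
        have e := b2 k 1
        simp only [mul_one] at e
        rw [hxn]
        simp only [n]
        rw [e]
        simp
  have hv1 : v + 1 < n := by omega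
  obtain ⟨s1, s2⟩ := h3 M n g (fun x y _ _ => R0 _ _ _) (fun x y _ _ => R1 _ _ _) sA sB t (v + 1)
    hk (by omega) hv1
  have hinn : (g (v + 1) (t + 1)).inn :=
    ⟨(sA _ _ hv1.le hk.le).2 ⟨by omega, hv1⟩, (sB _ _ hv1.le hk.le).2 ⟨by omega, hk⟩⟩
  have hm : (g (v + 1) (t + 1)).m 0 = true := (s2 0).2 rfl
  have hchk : (g (v + 1) (t + 1)).Cell := cell _ _ _
  have hne := hchk.chk hinn hm b (by rw [s1]; exact hb)
  -- the value of `be`
  have e3 := a3 k 0 (v + 1) (by omega) hv1
  simp only [mul_zero, add_zero] at e3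
  have e4 := (cell (bb p o k + (v + 1)) 0 (zz q u (padicValNat 2 (v + 1)))).bg e3
  rw [hbe, hga] at e4
  have e5 : (g (v + 1) (t + 1)).be = (T (bb p o k + (v + 1)) 0 0).be := hbe _ _ _
  rw [e5, e4] at hne
  exact hne

end Pool.Agent.Y571.BC.Sound
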