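import Pool.Agent.Y817.BC.Stm

set_option autoImplicit false

namespace Pool.Agent.Y571.BC.Square

open Pool.Agent.Helper273.Machine Pool.Agent.Y817.BC Function

/-- the registers grow at most by one in each step -/
theorem run_le (M : Mch) (t : ℕ) : ∀ i, (M.run t).2 i ≤ t := by
  induction t with
  | zero => intro i; exact le_rfl
  | succ t ih =>
    intro i
    have h : M.run (t + 1) = mstep M.ins (M.run t) := iterate_succ_apply' _ _ _
    rw [h]
    unfold mstep
    split
    · simp only [update_apply]
      split_ifs with h1
      · subst h1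
        have := ih i
        omega
      · exact (ih i).trans (Nat.le_succ t)
    · split_ifs
      · exact (ih i).trans (Nat.le_succ t)
      · simp only [update_apply]
        split_ifs with h1
        · subst h1
          have := ih i
          omega
        · exact (ih i).trans (Nat.le_succ t)
    · exact (ih i).trans (Nat.le_succ t)

theorem t : StmSquare := by
  intro M n g hR0 hR1 hA hB
  have inn : ∀ x y, x ≤ n → y ≤ n → ((g x y).inn ↔ (0 < x ∧ x < n) ∧ (0 < y ∧ y < n)) := by
    intro x y hx hy
    unfold Lam.inn
    rw [hA x y hx hy, hB x y hx hy]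
  intro t
  induction t with
  | zero =>
    intro x h1n hx hxn
    have hi : (g x 1).inn := (inn x 1 (by omega) (by omega)).2 ⟨⟨hx, hxn⟩, by omega, by omega⟩
    have ho : ¬ (g x 0).inn := fun h => by
      have := ((inn x 0 (by omega) (by omega)).1 h).2.1
      omega
    have h1 := (hR1 x 0 (by omega) (by omega)).bi ho hi
    refine ⟨h1.1, fun i => ?_⟩
    have h2 : (g x (0 + 1)).m i = (g x (0 + 1)).fst := h1.2 i
    rw [h2]
    have h3 : (M.run 0).2 i = 0 := rfl
    rw [h3]
    obtain ⟨x', rfl⟩ : ∃ x', x = x' + 1 := ⟨x - 1, by omega⟩
    rcases Nat.eq_zero_or_pos x' with hx' | hx'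
    · subst hx'
      have ho' : ¬ (g 0 1).inn := fun h => by
        have := ((inn 0 1 (by omega) (by omega)).1 h).1.1
        omega
      have h4 := ((hR0 0 1 (by omega) (by omega)).bi ho' hi).1
      simp only [zero_add] at h4 ⊢
      simp [h4]
    · have hi' : (g x' 1).inn :=
        (inn x' 1 (by omega) (by omega)).2 ⟨⟨hx', by omega⟩, by omega, by omega⟩
      have h4 := ((hR0 x' 1 (by omega) (by omega)).ii hi' hi).2.2.2.2
      simp only [zero_add] at h4 ⊢
      rw [h4]
      constructor
      · intro h; cases h
      · intro h; omega
  | succ t ih =>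
    intro x htn hx hxn
    have ih' := fun x h1 h2 => ih x (by omega) h1 h2
    have hle := run_le M t
    -- the cells of the row `t + 1`
    have hin : ∀ x, 0 < x → x < n → (g x (t + 1)).inn := fun x h1 h2 =>
      (inn x (t + 1) (by omega) (by omega)).2 ⟨⟨h1, h2⟩, by omega, by omega⟩
    have hout0 : ¬ (g 0 (t + 1)).inn := fun h => by
      have := ((inn 0 (t + 1) (by omega) (by omega)).1 h).1.1
      omega
    have houtn : ¬ (g n (t + 1)).inn := fun h => by
      have := ((inn n (t + 1) (by omega) (by omega)).1 h).1.2
      omega
    have hzr : ∀ x, 0 < x → x < n → ∀ i, ((g x (t + 1)).zr i = true ↔ (M.run t).2 i = 0) := by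
      intro x hx
      induction x, hx using Nat.le_induction with
      | base =>
        intro h1 i
        have h2 := ((hR0 0 (t + 1) (by omega) (by omega)).bi hout0 (hin 1 (by omega) h1)).2.2
        have h3 : (g 1 (t + 1)).zr = (g 1 (t + 1)).m := h2
        have h4 := (ih' 1 (by omega) h1).2 i
        simp only [Nat.succ_eq_add_one, zero_add]
        rw [h3, h4]
        omega
      | succ x hx ihx =>
        intro h1 i
        have h2 := ((hR0 x (t + 1) (by omega) (by omega)).ii (hin x (by omega) (by omega))
          (hin (x + 1) (by omega) h1)).2.1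
        rw [h2]
        exact ihx (by omega) i
    have hmL : ∀ i, ((g x (t + 1)).mL i = true ↔ (M.run t).2 i + 2 = x) := by
      intro i
      obtain ⟨x', rfl⟩ : ∃ x', x = x' + 1 := ⟨x - 1, by omega⟩
      rcases Nat.eq_zero_or_pos x' with hx' | hx'
      · subst hx'
        have h2 := ((hR0 0 (t + 1) (by omega) (by omega)).bi hout0 (hin 1 (by omega) hxn)).2.1 i
        simp only [zero_add] at h2 ⊢
        rw [h2]
        constructor
        · intro h; cases h
        · intro h; omega
      · have h2 := ((hR0 x' (t + 1) (by omega) (by omega)).ii (hin x' (by omega) (by omega))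
          (hin (x' + 1) (by omega) hxn)).2.2.1
        rw [h2, (ih' x' hx' (by omega)).2 i]
        omega
    have hmR : ∀ i, ((g x (t + 1)).mR i = true ↔ (M.run t).2 i = x) := by
      intro i
      rcases Nat.lt_or_ge (x + 1) n with h1 | h1
      · have h2 := ((hR0 x (t + 1) (by omega) (by omega)).ii (hin x hx hxn)
          (hin (x + 1) (by omega) h1)).2.2.2.1
        rw [h2, (ih' (x + 1) (by omega) h1).2 i]
        omega
      · have hn : x + 1 = n := by omega
        have h2 := (hR0 x (t + 1) (by omega) (by omega)).ib (hin x hx hxn) (by rw [hn]; exact houtn) i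
        rw [h2]
        have := hle i
        constructor
        · intro h; cases h
        · intro h; omega
    have hzx := hzr x hx hxn
    obtain ⟨hq, hm⟩ := ih' x hx hxn
    have hi2 : (g x (t + 1 + 1)).inn :=
      (inn x (t + 1 + 1) (by omega) (by omega)).2 ⟨⟨hx, hxn⟩, by omega, by omega⟩
    obtain ⟨h1, h2⟩ := (hR1 x (t + 1) (by omega) (by omega)).ii (hin x hx hxn) hi2
    have hrun : M.run (t + 1) = mstep M.ins (M.run t) := iterate_succ_apply' _ _ _
    rw [h1, h2, hrun]
    unfold Lam.nxt mstep
    rw [hq]
    cases hins : M.ins (M.run t).1 with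
    | inc r q =>
      refine ⟨rfl, fun i => ?_⟩
      simp only [update_apply]
      split_ifs with h
      · subst h
        rw [hmL]
      · exact hm i
    | dec r q q' =>
      by_cases hz : (M.run t).2 r = 0
      · have hz' := (hzx r).2 hz
        simp only [hz, hz', if_true]
        exact ⟨trivial, hm⟩
      · have hz' : (g x (t + 1)).zr r = false := by
          cases h : (g x (t + 1)).zr r with
          | false => rfl
          | true => exact absurd ((hzx r).1 h) hz
        simp only [hz, hz', if_false, Bool.false_eq_true]
        refine ⟨trivial, fun i => ?_⟩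
        simp only [update_apply]
        split_ifs with h
        · subst h
          rw [hmR]
          omega
        · exact hm i
    | jmp q =>
      exact ⟨rfl, hm⟩

end Pool.Agent.Y571.BC.Square
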