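import Pool.Agent.Y817.BC.Stm

set_option autoImplicit false

namespace Pool.Agent.Y571.BC.ZComp

open Pool.Agent.Y817.BC

theorem cpow {α : Type} [Primcodable α] {f : α → ℕ} (hf : Computable f) :
    Computable (fun a => 2 ^ f a) := by
  have h : Primrec₂ (fun a b : ℕ => a ^ b) := Primrec₂.unpaired'.1 Nat.Primrec.pow
  exact (h.to_comp).comp (Computable.const 2) hf

theorem cadd {α : Type} [Primcodable α] {f g : α → ℕ} (hf : Computable f) (hg : Computable g) :
    Computable (fun a => f a + g a) :=
  Primrec.nat_add.to_comp.comp hf hg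

theorem cmul {α : Type} [Primcodable α] {f g : α → ℕ} (hf : Computable f) (hg : Computable g) :
    Computable (fun a => f a * g a) :=
  Primrec.nat_mul.to_comp.comp hf hg

theorem cqk {α : Type} [Primcodable α] {q u : ℕ → Bool} (hq : Computable q) (hu : Computable u)
    {f g : α → ℕ} (hf : Computable f) (hg : Computable g) (i : ℕ) :
    Computable (fun a => qk q u (f a) (g a) i) := by
  have h0 : Computable (fun a => decide (g a = 0)) := by
    have : Primrec (fun n : ℕ => decide (n = 0)) :=
      (Primrec.eq.comp Primrec.id (Primrec.const 0)).decide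
    exact this.to_comp.comp hg
  have h1 : Computable (fun a => !u (f a + 2 ^ g a * i + 2 ^ (g a - 1))) := by
    refine Primrec.not.to_comp.comp (hu.comp ?_)
    exact cadd (cadd hf (cmul (cpow hg) (Computable.const i)))
      (cpow (Primrec.nat_sub.to_comp.comp hg (Computable.const 1)))
  refine (Computable.cond h0 (Computable.const (q i)) h1).of_eq fun a => ?_
  unfold qk
  by_cases h : g a = 0 <;> simp [h]

theorem cbb {q u : ℕ → Bool} (hq : Computable q) (hu : Computable u) : Computable (bb q u) := by
  have hstep : Computable₂ (fun (_ : ℕ) (p : ℕ × ℕ) =>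
      p.2 + 2 ^ p.1 * (bif qk q u p.2 p.1 1 then 2 else 1)) := by
    have hp2 : Computable (fun a : ℕ × ℕ × ℕ => a.2.2) := Computable.snd.comp Computable.snd
    have hp1 : Computable (fun a : ℕ × ℕ × ℕ => a.2.1) := Computable.fst.comp Computable.snd
    exact cadd hp2 (cmul (cpow hp1)
      (Computable.cond (cqk hq hu hp2 hp1 1) (Computable.const 2) (Computable.const 1)))
  have h := Computable.nat_rec (f := fun n : ℕ => n) (g := fun _ : ℕ => (0 : ℕ))
    Computable.id (Computable.const 0) hstep
  refine h.of_eq fun n => ?_
  induction n with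
  | zero => rfl
  | succ n ih =>
    simp only [bb]
    rw [← ih]
    simp only [cond_eq_ite]

theorem t : StmZComp := by
  intro q u hq hu
  have hb := cbb hq hu
  have h : Computable (fun k => bb q u k + (bif qk q u (bb q u k) k 0 then 0 else 2 ^ k)) :=
    cadd hb (Computable.cond (cqk hq hu hb Computable.id 0) (Computable.const 0)
      (cpow Computable.id))
  refine h.of_eq fun k => ?_
  unfold zz
  simp only [cond_eq_ite]

end Pool.Agent.Y571.BC.ZComp
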